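import Pool.Agent.H71.CR.Stmt

/-! Row FGZ of the board cwr_modules: germs together with parameters. -/

set_option autoImplicit false

open Set Pool.Agent.TK Pool.Agent.H71.VK

namespace Pool.Agent.CR

private lemma h73_so_mono {c : Lf} {Y Y' : Set ℕ} {x x' : List ℕ} (h : SO c Y x x')
    (hY : Y' ⊆ Y) : SO c Y' x x' := ⟨h.1, fun D hD => h.2 D fun y hy => hY (hD y hy)⟩

private lemma h73_so_symm {c : Lf} {Y : Set ℕ} {x x' : List ℕ} (h : SO c Y x x') :
    SO c Y x' x := ⟨h.1.symm, fun D hD => (h.2 D hD).zip_symm⟩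

private lemma h73_so_trans {c : Lf} {Y : Set ℕ} {x x' x'' : List ℕ} (h : SO c Y x x')
    (h' : SO c Y x' x'') : SO c Y x x'' :=
  ⟨h.1.trans h'.1, fun D hD => (h.2 D hD).zip_trans h.1 (h'.2 D hD)⟩

private lemma h73_int {n : Bd} {c : Lf} {U : Set (Set ℕ)} (hU : Dirn n c U)
    {A0 : Set ℕ} (hA0 : A0 ∈ U) {ι : Type} [Finite ι] (f : ι → Set ℕ) (hf : ∀ i, f i ∈ U) :
    ∃ A ∈ U, ∀ i, A ⊆ f i := by
  classical
  have : Fintype ι := Fintype.ofFinite ι
  have key : ∀ s : Finset ι, ∃ A ∈ U, ∀ i ∈ s, A ⊆ f i := by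
    intro s
    induction s using Finset.induction_on with
    | empty => exact ⟨A0, hA0, fun i hi => absurd hi (Finset.notMem_empty i)⟩
    | insert a s _ ih =>
      obtain ⟨A, hA, hA'⟩ := ih
      refine ⟨A ∩ f a, hU.int A hA _ (hf a), fun i hi => ?_⟩
      rcases Finset.mem_insert.1 hi with rfl | hi
      · exact inter_subset_right
      · exact inter_subset_left.trans (hA' i hi)
  obtain ⟨A, hA, hA'⟩ := key Finset.univ
  exact ⟨A, hA, fun i => hA' i (Finset.mem_univ i)⟩

/-- representatives of the values of a function with finite range -/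
private lemma h73_reps {τ : Type} [Finite τ] (φ : List ℕ → τ) (Q : List ℕ → Prop) :
    ∃ E : List (List ℕ), (∀ e ∈ E, Q e) ∧ ∀ x, Q x → ∃ e ∈ E, φ x = φ e := by
  classical
  obtain ⟨s', hs', hb⟩ := Set.exists_subset_bijOn {x | Q x} φ
  have hfin : s'.Finite := Set.Finite.of_finite_image (Set.toFinite (φ '' s')) hb.injOn
  refine ⟨hfin.toFinset.toList, fun e he => ?_, fun x hx => ?_⟩
  · rw [Finset.mem_toList, Set.Finite.mem_toFinset] at he
    exact hs' he
  · obtain ⟨e, he, he'⟩ := hb.surjOn (Set.mem_image_of_mem φ hx)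
    refine ⟨e, ?_, he'.symm⟩
    rw [Finset.mem_toList, Set.Finite.mem_toFinset]
    exact he

private lemma h73_zip (s : List (ℕ × ℕ)) : (s.map Prod.fst).zip (s.map Prod.snd) = s := by
  induction s with
  | nil => rfl
  | cons a s ih => simp [ih]

/-- the word `w` read in the list `l` -/
private def h73_rd {k B : ℕ} (l : List ℕ) (w : Fin k → Fin B) : List ℕ :=
  List.ofFn fun j => l.getD (w j) 0

private lemma h73_rd_eq (l : List ℕ) {B : ℕ} (s : List (ℕ × ℕ)) (g : ℕ × ℕ → ℕ)
    (w : Fin s.length → Fin B) (hw : ∀ j : Fin s.length, l.getD (w j) 0 = g (s.get j)) :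
    h73_rd l w = s.map g := by
  unfold h73_rd
  have h1 : (fun j : Fin s.length => l.getD (w j) 0) = fun j => g (s.get j) := funext hw
  rw [h1]
  have h2 : List.ofFn (fun j : Fin s.length => g (s.get j)) = (List.ofFn s.get).map g := by
    rw [List.map_ofFn]
    rfl
  rw [h2, List.ofFn_get]

theorem pf_FGZ : T_FGZ := by
  classical
  intro n c hc U hU hg z Q
  obtain ⟨E0, hE0⟩ := hg
  obtain ⟨e00, he00, A0, hA0, -⟩ := hE0 [] (Nat.zero_le _)
  have hpos : 0 < E0.length := List.length_pos_of_mem he00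
  -- the germ
  have hgerm : ∀ x : List ℕ, ∃ i : Fin E0.length, x.length ≤ n.2 →
      ∃ A ∈ U, SO c A x (E0.get i) := by
    intro x
    by_cases hx : x.length ≤ n.2
    · obtain ⟨e, he, hA⟩ := hE0 x hx
      obtain ⟨i, rfl⟩ := List.mem_iff_get.1 he
      exact ⟨i, fun _ => hA⟩
    · exact ⟨⟨0, hpos⟩, fun h => absurd h hx⟩
  choose γ hγ using hgerm
  have hγγ : ∀ x x' : List ℕ, x.length ≤ n.2 → x'.length ≤ n.2 → γ x = γ x' →
      ∃ A ∈ U, SO c A x x' := by
    intro x x' hx hx' h
    obtain ⟨A, hA, h1⟩ := hγ x hx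
    obtain ⟨A', hA', h2⟩ := hγ x' hx'
    rw [← h] at h2
    exact ⟨A ∩ A', hU.int A hA A' hA', h73_so_trans (h73_so_mono h1 inter_subset_left)
      (h73_so_symm (h73_so_mono h2 inter_subset_right))⟩
  -- the type of a list
  let φ : List ℕ → Fin (n.2 + 1) × ((Σ k : Fin (n.2 + 1), (Fin k → Fin (n.2 + z.length))) →
      Fin E0.length) := fun x => (⟨min x.length n.2, by omega⟩,
        fun w => γ (h73_rd (x ++ z) w.2))
  obtain ⟨E, hE, hE'⟩ := h73_reps φ fun x => Q x ∧ x.length ≤ n.2
  refine ⟨E, fun e he => (hE e he).1, fun x hx hQ => ?_⟩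
  obtain ⟨e, he, hxe⟩ := hE' x ⟨hQ, hx⟩
  have hel := (hE e he).2
  refine ⟨e, he, ?_⟩
  have hlen : x.length = e.length := by
    have h1 := congrArg (fun p => (p.1 : ℕ)) hxe
    simp only [φ] at h1
    omega
  have hw : ∀ w : (Σ k : Fin (n.2 + 1), (Fin k → Fin (n.2 + z.length))),
      ∃ A ∈ U, SO c A (h73_rd (x ++ z) w.2) (h73_rd (e ++ z) w.2) := by
    intro w
    have h1 : γ (h73_rd (x ++ z) w.2) = γ (h73_rd (e ++ z) w.2) :=
      congrFun (congrArg Prod.snd hxe) w
    refine hγγ _ _ ?_ ?_ h1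
    · unfold h73_rd
      rw [List.length_ofFn]
      have := w.1.2
      omega
    · unfold h73_rd
      rw [List.length_ofFn]
      have := w.1.2
      omega
  choose f hf hf' using hw
  obtain ⟨A, hA, hA'⟩ := h73_int hU hA0 f hf
  refine ⟨A, hA, hlen, fun D hD s hs => ?_⟩
  by_cases hsl : n.2 < s.length
  · rw [hc.ar _ (by rw [List.length_map]; exact hsl),
      hc.ar _ (by rw [List.length_map]; exact hsl)]
  rw [not_lt] at hsl
  -- the members which are words in the parameters and in the list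
  let J : ℕ × ℕ → Prop := fun q => ∃ i : Fin (n.2 + z.length),
    (x ++ z).getD i 0 = q.1 ∧ (e ++ z).getD i 0 = q.2
  have hJzip : ∀ q ∈ x.zip e, J q := by
    intro q hq
    obtain ⟨i, h1, h2, rfl⟩ := zip_get hq
    refine ⟨⟨i, by omega⟩, ?_, ?_⟩
    · simp only
      rw [List.getD_eq_getElem _ _ (by rw [List.length_append]; omega),
        List.getElem_append_left h1]
    · simp only
      rw [List.getD_eq_getElem _ _ (by rw [List.length_append]; omega),
        List.getElem_append_left h2]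
  have hJz : ∀ q : ℕ × ℕ, q.1 = q.2 → q.1 ∈ z → J q := by
    intro q hq hqz
    obtain ⟨i, hi, h1⟩ := List.mem_iff_getElem.1 hqz
    refine ⟨⟨x.length + i, by omega⟩, ?_, ?_⟩
    · simp only
      rw [List.getD_eq_getElem _ _ (by rw [List.length_append]; omega),
        List.getElem_append_right (by omega)]
      simp only [Nat.add_sub_cancel_left]
      exact h1
    · simp only
      rw [List.getD_eq_getElem _ _ (by rw [List.length_append]; omega),
        List.getElem_append_right (by omega)]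
      have h2 : x.length + i - e.length = i := by omega
      simp only [h2]
      rw [h1, hq]
  let s' := s.filter fun q => decide (J q)
  have hs'l : s'.length ≤ n.2 := (List.length_filter_le _ _).trans hsl
  have hs'J : ∀ j : Fin s'.length, J (s'.get j) := fun j =>
    of_decide_eq_true (List.mem_filter.1 (List.get_mem s' j)).2
  choose w hw1 hw2 using hs'J
  have h1 := hf' ⟨⟨s'.length, by omega⟩, w⟩
  have e1 : h73_rd (x ++ z) w = s'.map Prod.fst := h73_rd_eq (x ++ z) s' Prod.fst w hw1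
  have e2 : h73_rd (e ++ z) w = s'.map Prod.snd := h73_rd_eq (e ++ z) s' Prod.snd w hw2
  simp only at h1
  rw [e1, e2] at h1
  have h2 := h1.2 (D.filter fun y => decide (y ∈ A)) (by
    intro y hy
    exact hA' _ (of_decide_eq_true (List.mem_filter.1 hy).2))
  rw [h73_zip] at h2
  refine h2 s fun q hq => ?_
  by_cases hJq : J q
  · exact List.mem_append_right _ (List.mem_filter.2 ⟨hq, decide_eq_true hJq⟩)
  · rcases List.mem_append.1 (hs q hq) with h3 | h3
    · obtain ⟨h4, h5⟩ := mem_dg.1 h3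
      refine List.mem_append_left _ (mem_dg.2 ⟨h4, List.mem_filter.2 ⟨h5, ?_⟩⟩)
      rcases hD q.1 h5 with h6 | h6
      · exact decide_eq_true h6
      · exact absurd (hJz q h4 h6) hJq
    · exact absurd (hJzip q h3) hJq

end Pool.Agent.CR
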